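import Pool.Agent.H93.Sens.Fourier
import Pool.Agent.H93.Sens.HuangAsym

/-!
# Depth-two threshold circuits of size `2^{3ab}` for functions of sensitivity `a` at the zeros and
`b` at the ones

Every Boolean function (in any number of variables) with at most `a` sensitive coordinates at each
zero and at most `b` at each one is computed by a threshold circuit of depth `2` with at most
`2^{3ab}` gates.  Consequently Q1 holds, with `d = 2` and `c = 3K`, for all functions with
`min (a, b) ≤ K log₂ n` (the other number is arbitrary), in particular in the whole range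
`s ≤ K log₂ n`.

Ingredients (all proved here): the asymmetric form `deg f ≤ a b` of Huang's theorem, the
granularity of the Fourier coefficients of a function of degree `D` (at most `4^D` of them are
nonzero), and the fact that a parity is a signed sum of threshold gates.
-/

open Finset
open Pool.Agent.H93.Sens

namespace Pool.Agent.Results.MP_671030_lc.DepthTwo

/-- `f` is computed by a circuit with `m` linear threshold gates and depth at most `d`.  Gate `j`
has weight `w j i` on the input bit `x i`, weight `v j k` on gate `k`, threshold `θ j` and level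
`ℓ j`; it may only read gates of smaller level; `o` is the output gate, and `g x j` is the value of
gate `j` on input `x`. -/
def ComputedBy {n : ℕ} (f : (Fin n → Bool) → Bool) (m d : ℕ) : Prop :=
  ∃ (w : Fin m → Fin n → ℝ) (v : Fin m → Fin m → ℝ) (θ : Fin m → ℝ)
    (ℓ : Fin m → ℕ) (o : Fin m) (g : (Fin n → Bool) → Fin m → Bool),
    (∀ j, 1 ≤ ℓ j ∧ ℓ j ≤ d) ∧
    (∀ j k, v j k ≠ 0 → ℓ k < ℓ j) ∧
    (∀ (x : Fin n → Bool) (j : Fin m),
      g x j = decide (θ j ≤ (∑ i : Fin n, w j i * (if x i then (1 : ℝ) else 0)) +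
                            ∑ k : Fin m, v j k * (if g x k then (1 : ℝ) else 0))) ∧
    (∀ x : Fin n → Bool, g x o = f x)

/-- the same with an arbitrary finite index type of gates -/
lemma computedBy_of_fintype {n : ℕ} (f : (Fin n → Bool) → Bool) (d : ℕ) (G : Type) [Fintype G]
    (w : G → Fin n → ℝ) (v : G → G → ℝ) (θ : G → ℝ) (ℓ : G → ℕ) (o : G)
    (g : (Fin n → Bool) → G → Bool) (h1 : ∀ j, 1 ≤ ℓ j ∧ ℓ j ≤ d)
    (h2 : ∀ j k, v j k ≠ 0 → ℓ k < ℓ j)
    (h3 : ∀ (x : Fin n → Bool) (j : G),
      g x j = decide (θ j ≤ (∑ i : Fin n, w j i * (if x i then (1 : ℝ) else 0)) +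
                            ∑ k : G, v j k * (if g x k then (1 : ℝ) else 0)))
    (h4 : ∀ x : Fin n → Bool, g x o = f x) : ComputedBy f (Fintype.card G) d := by
  let e := Fintype.equivFin G
  refine ⟨fun j => w (e.symm j), fun j k => v (e.symm j) (e.symm k), fun j => θ (e.symm j),
    fun j => ℓ (e.symm j), e o, fun x j => g x (e.symm j), fun j => h1 _, fun j k h => h2 _ _ h,
    ?_, ?_⟩
  · intro x j
    have : ∑ k : Fin (Fintype.card G), v (e.symm j) (e.symm k) * (if g x (e.symm k) then (1 : ℝ) else 0)
        = ∑ k : G, v (e.symm j) k * (if g x k then (1 : ℝ) else 0) :=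
      Equiv.sum_comp e.symm (fun k => v (e.symm j) k * (if g x k then (1 : ℝ) else 0))
    rw [this]
    exact h3 x (e.symm j)
  · intro x
    simp [h4]

/-- Let `f` be a Boolean function in `n` variables which has at most `a` sensitive coordinates at
each of its zeros and at most `b` at each of its ones.  Then `f` is computed by a threshold circuit
of depth at most `2` with `m ≤ 2^{3ab}` gates.  In particular, if the sensitivity of `f` is at most
`s` and `min (a, b) ≤ K log₂ n` (that is `2^a ≤ n^K` or `2^b ≤ n^K`), then `m ≤ n^{3Ks}`. -/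
theorem result (n a b : ℕ) (f : (Fin n → Bool) → Bool)
    (h0 : ∀ x : Fin n → Bool, f x = false →
      (univ.filter (fun i : Fin n => f (Function.update x i (!x i)) ≠ f x)).card ≤ a)
    (h1 : ∀ x : Fin n → Bool, f x = true →
      (univ.filter (fun i : Fin n => f (Function.update x i (!x i)) ≠ f x)).card ≤ b) :
    ∃ m : ℕ, m ≤ 2 ^ (3 * (a * b)) ∧
      (∀ K s : ℕ, a ≤ s → b ≤ s → (2 ^ a ≤ n ^ K ∨ 2 ^ b ≤ n ^ K) → m ≤ n ^ (3 * K * s)) ∧
      ComputedBy f m 2 := by
  classical
  have hD : ∀ S, moeb f S ≠ 0 → S.card ≤ a * b := card_le_mul_of_moeb_ne_zero f a b h0 h1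
  -- the gates: one output gate and the gates `|U ∩ x| ≥ j + 1`
  let J : Finset (Finset (Fin n) × ℕ) := (fsupp f).biUnion fun U => (range U.card).image fun j => (U, j)
  have hJmem : ∀ p : Finset (Fin n) × ℕ, p ∈ J ↔ p.1 ∈ fsupp f ∧ p.2 < p.1.card := by
    intro p
    simp only [J, mem_biUnion, mem_image, mem_range]
    constructor
    · rintro ⟨U, hU, j, hj, rfl⟩
      exact ⟨hU, hj⟩
    · rintro ⟨h1, h2⟩
      exact ⟨p.1, h1, p.2, h2, rfl⟩
  have hUcard : ∀ U ∈ fsupp f, U.card ≤ (a * b) := by
    intro U hU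
    by_contra h
    push Not at h
    have h0 := four_eq_zero f ((a * b)) hD U h
    exact (by simpa [fsupp] using hU : four f U ≠ 0) h0
  have hJcard : J.card ≤ 4 ^ ((a * b)) * (a * b) := by
    calc J.card ≤ ∑ U ∈ fsupp f, ((range U.card).image fun j => (U, j)).card := card_biUnion_le
      _ ≤ ∑ U ∈ fsupp f, (a * b) := by
          refine sum_le_sum fun U hU => ?_
          exact (card_image_le.trans (by rw [card_range])).trans (hUcard U hU)
      _ = (fsupp f).card * (a * b) := by rw [sum_const, smul_eq_mul]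
      _ ≤ 4 ^ ((a * b)) * (a * b) := by
          gcongr
          exact card_fsupp_le f ((a * b)) hD
  let G : Type := Option {p : Finset (Fin n) × ℕ // p ∈ J}
  have hGcard : Fintype.card G ≤ 2 ^ (3 * (a * b)) := by
    have h1 : Fintype.card G = J.card + 1 := by
      simp only [G, Fintype.card_option, Fintype.card_coe]
    rw [h1]
    have h2 : 1 + (a * b) ≤ 2 ^ ((a * b)) := by
      have := Nat.lt_two_pow_self (n := (a * b))
      omega
    have h3 : (4 : ℕ) ^ ((a * b)) = 2 ^ (2 * (a * b)) := by
      rw [show (4 : ℕ) = 2 ^ 2 by norm_num, ← pow_mul]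
    have h4 : 1 ≤ (4 : ℕ) ^ ((a * b)) := Nat.one_le_pow _ _ (by norm_num)
    calc J.card + 1 ≤ 4 ^ ((a * b)) * (a * b) + 4 ^ ((a * b)) := by omega
      _ = 4 ^ ((a * b)) * (1 + (a * b)) := by ring
      _ ≤ 4 ^ ((a * b)) * 2 ^ ((a * b)) := by gcongr
      _ = 2 ^ (3 * (a * b)) := by
          rw [h3, ← pow_add]
          congr 1
          ring
  refine ⟨Fintype.card G, hGcard, ?_, ?_⟩
  · intro K s has hbs hK
    have hnK : 1 ≤ n ^ K := by
      rcases hK with h | h
      · exact Nat.one_le_two_pow.trans h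
      · exact Nat.one_le_two_pow.trans h
    rcases hK with h | h
    · calc Fintype.card G ≤ 2 ^ (3 * (a * b)) := hGcard
        _ = (2 ^ a) ^ (3 * b) := by rw [← pow_mul]; congr 1; ring
        _ ≤ (n ^ K) ^ (3 * b) := Nat.pow_le_pow_left h _
        _ ≤ (n ^ K) ^ (3 * s) := Nat.pow_le_pow_right hnK (by omega)
        _ = n ^ (3 * K * s) := by rw [← pow_mul]; congr 1; ring
    · calc Fintype.card G ≤ 2 ^ (3 * (a * b)) := hGcard
        _ = (2 ^ b) ^ (3 * a) := by rw [← pow_mul]; congr 1; ring
        _ ≤ (n ^ K) ^ (3 * a) := Nat.pow_le_pow_left h _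
        _ ≤ (n ^ K) ^ (3 * s) := Nat.pow_le_pow_right hnK (by omega)
        _ = n ^ (3 * K * s) := by rw [← pow_mul]; congr 1; ring
  -- the circuit
  let w : G → Fin n → ℝ := fun p i => match p with
    | none => 0
    | some q => if i ∈ q.1.1 then 1 else 0
  let v : G → G → ℝ := fun p q => match p, q with
    | none, some q => -2 * (four f q.1.1 : ℝ) * (-1) ^ q.1.2
    | _, _ => 0
  let θ : G → ℝ := fun p => match p with
    | none => 2 ^ n - ∑ U ∈ fsupp f, (four f U : ℝ)
    | some q => (q.1.2 : ℝ) + 1
  let ℓ : G → ℕ := fun p => match p with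
    | none => 2
    | some _ => 1
  let g : (Fin n → Bool) → G → Bool := fun x p => match p with
    | none => f x
    | some q => decide (q.1.2 + 1 ≤ (q.1.1 ∩ supp x).card)
  refine computedBy_of_fintype f 2 G w v θ ℓ none g ?_ ?_ ?_ (fun x => rfl)
  · rintro (_ | q)
    · exact ⟨by norm_num, le_rfl⟩
    · exact ⟨le_rfl, by norm_num⟩
  · rintro (_ | p) (_ | q) h
    · simp [v] at h
    · change 1 < 2
      norm_num
    · simp [v] at h
    · simp [v] at h
  · rintro x (_ | p)
    · -- the output gate
      have hw : ∑ i : Fin n, w none i * (if x i then (1 : ℝ) else 0) = 0 := by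
        simp [w]
      rw [hw, zero_add]
      have hsumG : ∑ k : G, v none k * (if g x k then (1 : ℝ) else 0)
          = ∑ p ∈ J, (-2 * (four f p.1 : ℝ) * (-1) ^ p.2) * (if p.2 + 1 ≤ (p.1 ∩ supp x).card then (1 : ℝ) else 0) := by
        rw [Fintype.sum_option]
        have h0 : v none none * (if g x none then (1 : ℝ) else 0) = 0 := by simp [v]
        rw [h0, zero_add]
        rw [← sum_coe_sort J (fun p => (-2 * (four f p.1 : ℝ) * (-1) ^ p.2) * (if p.2 + 1 ≤ (p.1 ∩ supp x).card then (1 : ℝ) else 0))]
        refine sum_congr rfl fun q _ => ?_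
        simp [v, g]
      have hJsum : ∑ p ∈ J, (-2 * (four f p.1 : ℝ) * (-1) ^ p.2) * (if p.2 + 1 ≤ (p.1 ∩ supp x).card then (1 : ℝ) else 0)
          = ∑ U ∈ fsupp f, ∑ j ∈ range U.card, (-2 * (four f U : ℝ) * (-1) ^ j) * (if j + 1 ≤ (U ∩ supp x).card then (1 : ℝ) else 0) := by
        simp only [J]
        rw [sum_biUnion]
        · refine sum_congr rfl fun U _ => ?_
          rw [sum_image]
          intro a _ b _ h
          exact congrArg Prod.snd h
        · intro U _ U' _ hUU'
          rw [Function.onFun, Finset.disjoint_left]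
          intro p hp hp'
          rw [mem_image] at hp hp'
          obtain ⟨j, _, rfl⟩ := hp
          obtain ⟨j', _, h⟩ := hp'
          exact hUU' (congrArg Prod.fst h).symm
      have hchi : ∀ U : Finset (Fin n), ∑ j ∈ range U.card, (-2 * (four f U : ℝ) * (-1) ^ j) * (if j + 1 ≤ (U ∩ supp x).card then (1 : ℝ) else 0)
          = (four f U : ℝ) * (chi U x : ℝ) - (four f U : ℝ) := by
        intro U
        have h1 : (chi U x : ℝ) = 1 - 2 * ∑ j ∈ range U.card, (-1) ^ j * (if j + 1 ≤ (U ∩ supp x).card then (1 : ℝ) else 0) := by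
          have := congrArg (Int.cast : ℤ → ℝ) (chi_eq_thresholds U x)
          push_cast at this
          exact this
        rw [h1]
        have h2 : ∑ j ∈ range U.card, (-2 * (four f U : ℝ) * (-1) ^ j) * (if j + 1 ≤ (U ∩ supp x).card then (1 : ℝ) else 0)
            = -2 * (four f U : ℝ) * ∑ j ∈ range U.card, (-1) ^ j * (if j + 1 ≤ (U ∩ supp x).card then (1 : ℝ) else 0) := by
          rw [mul_sum]
          exact sum_congr rfl fun j _ => by ring
        rw [h2]
        ring
      have hinv : ∑ U ∈ fsupp f, (four f U : ℝ) * (chi U x : ℝ) = 2 ^ n * (val f x : ℝ) := by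
        have h1 := congrArg (Int.cast : ℤ → ℝ) (four_inversion f x)
        push_cast at h1
        rw [← h1]
        refine sum_subset (subset_univ _) fun U _ hU => ?_
        have : four f U = 0 := by simpa [fsupp] using hU
        rw [this]
        simp
      rw [hsumG, hJsum, sum_congr rfl fun U _ => hchi U, sum_sub_distrib, hinv]
      change f x = decide ((2 : ℝ) ^ n - ∑ U ∈ fsupp f, (four f U : ℝ) ≤ _)
      have hiff : ((2 : ℝ) ^ n - ∑ U ∈ fsupp f, (four f U : ℝ) ≤
          2 ^ n * (val f x : ℝ) - ∑ U ∈ fsupp f, (four f U : ℝ)) ↔ f x = true := by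
        rw [sub_le_sub_iff_right]
        have hpos : (0 : ℝ) < 2 ^ n := by positivity
        unfold Pool.Agent.H93.Sens.val
        cases f x
        · simp [hpos]
        · simp
      rw [Bool.eq_iff_iff, decide_eq_true_iff]
      exact hiff.symm
    · -- the bottom gates
      have hv : ∑ k : G, v (some p) k * (if g x k then (1 : ℝ) else 0) = 0 := by
        refine sum_eq_zero fun k _ => ?_
        cases k <;> simp [v]
      rw [hv, add_zero]
      have hw : ∑ i : Fin n, w (some p) i * (if x i then (1 : ℝ) else 0) = ((p.1.1 ∩ supp x).card : ℝ) := by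
        have h1 : ∀ i : Fin n, w (some p) i * (if x i then (1 : ℝ) else 0) = if i ∈ p.1.1 ∩ supp x then 1 else 0 := by
          intro i
          by_cases h1 : i ∈ p.1.1 <;> cases h2 : x i <;> simp [w, supp, h1, h2]
        rw [sum_congr rfl fun i _ => h1 i, sum_ite_mem, univ_inter, sum_const, nsmul_eq_mul, mul_one]
      rw [hw]
      change decide (p.1.2 + 1 ≤ (p.1.1 ∩ supp x).card) = decide ((p.1.2 : ℝ) + 1 ≤ _)
      congr 1
      rw [eq_iff_iff]
      norm_cast

end Pool.Agent.Results.MP_671030_lc.DepthTwo
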