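import Pool.Agent.H53.SD.Transport

/-!
Low-sensitivity functions with large sign degree and without small depth-2 threshold circuits of
the classical restricted kinds.
-/

set_option autoImplicit false

namespace Pool.Agent.Results.MP_671030_lc.DepthTwoFails

open Finset Pool.Agent.H53.SD

/-- sensitivity of `f` at `x` -/
def sens {n : ℕ} (f : (Fin n → Bool) → Bool) (x : Fin n → Bool) : ℕ :=
  (univ.filter (fun i => f (Function.update x i (!x i)) ≠ f x)).card

/-- the bit `b` as a real number -/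
def bit (b : Bool) : ℝ := if b then 1 else 0

/-- the real polynomial `P` is positive exactly where `f` is true, and negative elsewhere -/
def SignRepresents {n : ℕ} (P : MvPolynomial (Fin n) ℝ) (f : (Fin n → Bool) → Bool) : Prop :=
  ∀ x, (f x = true → 0 < MvPolynomial.eval (fun i => bit (x i)) P) ∧
    (f x = false → MvPolynomial.eval (fun i => bit (x i)) P < 0)

/-- conjunctions of literals, disjunctions of literals and parities; the literal `(i, w)` says
that bit `i` equals `w` -/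
inductive SimpleGate (n : ℕ) : Type
  | conj (L : Finset (Fin n × Bool)) : SimpleGate n
  | disj (L : Finset (Fin n × Bool)) : SimpleGate n
  | parity (T : Finset (Fin n)) : SimpleGate n

/-- the value of a simple gate -/
def SimpleGate.eval {n : ℕ} : SimpleGate n → (Fin n → Bool) → Bool
  | .conj L, x => decide (∀ l ∈ L, x l.1 = l.2)
  | .disj L, x => decide (∃ l ∈ L, x l.1 = l.2)
  | .parity T, x => decide (Odd (T.filter (fun i => x i = true)).card)

/-- `f` is a linear threshold gate, with arbitrary real weights and threshold, of the input bits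
and of `M` conjunctions of literals, disjunctions of literals and parities -/
def ThrOfSimple {n : ℕ} (f : (Fin n → Bool) → Bool) (M : ℕ) : Prop :=
  ∃ (g : Fin M → SimpleGate n) (c : Fin M → ℝ) (a : Fin n → ℝ) (θ : ℝ),
    ∀ x, f x = true ↔ θ ≤ ∑ i, a i * bit (x i) + ∑ j, c j * bit ((g j).eval x)

/-- `f` is a linear threshold gate with integer weights of total absolute value at most `W` of the
input bits and of linear threshold gates with arbitrary real weights and thresholds -/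
def MajOfThr {n : ℕ} (f : (Fin n → Bool) → Bool) (W : ℕ) : Prop :=
  ∃ (M : ℕ) (u : Fin M → Fin n → ℝ) (t : Fin M → ℝ) (c : Fin M → ℤ) (a : Fin n → ℤ) (θ : ℝ),
    ∑ i, (a i).natAbs + ∑ j, (c j).natAbs ≤ W ∧
    ∀ x, f x = true ↔ θ ≤ ∑ i, (a i : ℝ) * bit (x i)
      + ∑ j, (c j : ℝ) * (if t j ≤ ∑ i, u j i * bit (x i) then 1 else 0)

/-! ### Auxiliary facts -/

lemma bit_eq (b : Bool) : bit b = bv b := rfl

/-- every simple gate is an affine function of a generalized monomial -/
lemma exists_gmon {n : ℕ} (g : SimpleGate n) : ∃ (T : Finset (Fin n)) (L : Finset (Fin n × Bool))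
    (α β : ℝ), ∀ x, bit (g.eval x) = α + β * gmon T L x := by
  classical
  cases g with
  | conj L =>
    refine ⟨∅, L, 0, 1, fun x => ?_⟩
    unfold gmon chi
    rw [prod_empty, one_mul, one_mul, zero_add]
    have key : (SimpleGate.conj L).eval x = conjF L x := by
      rw [Bool.eq_iff_iff, conjF_eq_true]
      simp [SimpleGate.eval]
    rw [key]
    unfold bit
    cases conjF L x <;> simp
  | disj L =>
    refine ⟨∅, L.image (fun l => (l.1, !l.2)), 1, -1, fun x => ?_⟩
    unfold gmon chi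
    rw [prod_empty, one_mul]
    have key : conjF (L.image (fun l => (l.1, !l.2))) x = !(SimpleGate.disj L).eval x := by
      rw [Bool.eq_iff_iff, conjF_eq_true]
      simp only [SimpleGate.eval, Bool.not_eq_true', decide_eq_false_iff_not, mem_image,
        forall_exists_index, and_imp]
      push Not
      constructor
      · intro h l hl hx
        have := h _ l hl rfl
        simp [hx] at this
      · rintro h _ l hl rfl
        have := h l hl
        simp only
        revert this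
        cases x l.1 <;> cases l.2 <;> simp
    rw [key]
    unfold bit
    cases (SimpleGate.disj L).eval x <;> simp
  | parity T =>
    refine ⟨T, ∅, 1 / 2, -1 / 2, fun x => ?_⟩
    have h1 : conjF (∅ : Finset (Fin n × Bool)) x = true := by
      rw [conjF_eq_true]
      intro l hl
      exact absurd hl (notMem_empty l)
    unfold gmon
    rw [h1, if_pos rfl, mul_one]
    have h2 : chi T x = (-1) ^ (T.filter (fun i => x i = true)).card := by
      unfold chi cs
      rw [prod_ite, prod_const, prod_const, one_pow, mul_one]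
    rw [h2]
    have h3 : (SimpleGate.parity T).eval x
        = decide (Odd (T.filter (fun i => x i = true)).card) := rfl
    rw [h3]
    unfold bit
    by_cases ho : Odd (T.filter (fun i => x i = true)).card
    · rw [ho.neg_one_pow, if_pos (decide_eq_true ho)]
      norm_num
    · rw [(Nat.not_odd_iff_even.1 ho).neg_one_pow, if_neg]
      · norm_num
      · simp only [decide_eq_true_eq]
        exact ho

section function

variable {p n : ℕ} (emb : Var p × (Bool × Bool) ↪ Fin n)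

/-- the function, on `n` bits -/
def fn (x : Fin n → Bool) : Bool := fullF p (fun q => x (emb q))

lemma fn_ext (z : Var p × (Bool × Bool) → Bool) : fn emb (ext emb z) = fullF p z := by
  unfold fn
  simp

lemma fn_sens (x : Fin n → Bool) : sens (fn emb) x ≤ 48 * p ^ 5 := by
  classical
  refine le_trans ?_ (fullF_sens p (fun q => x (emb q)))
  unfold sens sensSet
  rw [← card_map emb]
  refine card_le_card fun i hi => ?_
  rw [mem_filter] at hi
  have hex : ∃ q, emb q = i := by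
    by_contra h
    apply hi.2
    unfold fn
    congr 1
    funext q
    rw [Function.update_of_ne]
    intro h'
    exact h ⟨q, h'⟩
  obtain ⟨q, rfl⟩ := hex
  rw [mem_map]
  refine ⟨q, ?_, rfl⟩
  rw [mem_filter]
  refine ⟨mem_univ _, ?_⟩
  have e : (fun q' => Function.update x (emb q) (!x (emb q)) (emb q'))
      = flip (fun q' => x (emb q')) q := by
    funext q'
    by_cases h : q' = q
    · subst h
      rw [Function.update_self, flip_same]
    · rw [Function.update_of_ne (fun h' => h (emb.injective h')), flip_ne _ h]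
  have := hi.2
  unfold fn at this
  rw [e] at this
  exact this

lemma midF_hF (hp : 1 ≤ p) : ∀ D, ∀ P ∈ degLE (Var p) D, SignRep P (midF p) → 4 * p ^ 6 ≤ D :=
  fun _ _ hP hs => midF_degree p hp hP hs

lemma fn_degree (hp : 1 ≤ p) (P : MvPolynomial (Fin n) ℝ) (hs : SignRepresents P (fn emb)) :
    4 * p ^ 6 ≤ P.totalDegree := by
  refine degree_comp_gadF (midF p) (midF_hF hp) (poly_ext emb P) fun z => ?_
  have h := hs (ext emb z)
  rw [fn_ext] at h
  exact h

lemma fn_simple (hp : 1 ≤ p) (M : ℕ) (h : ThrOfSimple (fn emb) M) :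
    (8 / 7 : ℝ) ^ (4 * p ^ 6) ≤ M := by
  classical
  obtain ⟨g, c, a, θ, hf⟩ := h
  choose T L α β hg using fun j => exists_gmon (g j)
  choose κ hκ using fun j => gmon_ext emb (T j) (L j)
  have hp6 : 1 ≤ p ^ 6 := Nat.one_le_pow _ _ hp
  set T' : Fin M ⊕ (Var p × (Bool × Bool)) → Finset (Var p × (Bool × Bool)) :=
    Sum.elim (fun j => univ.filter (fun q => emb q ∈ T j)) (fun _ => ∅) with hT'
  set L' : Fin M ⊕ (Var p × (Bool × Bool)) → Finset ((Var p × (Bool × Bool)) × Bool) :=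
    Sum.elim (fun j => pull emb (L j)) (fun q => {(q, true)}) with hL'
  have hmain := mixed_lower_bound (midF p) (4 * p ^ 6) (midF_hF hp) (by omega) T' L'
    (Sum.elim (fun j => c j * β j * κ j) (fun q => a (emb q))) (θ - ∑ j, c j * α j)
    (fun z => ?_)
  · refine hmain.trans ?_
    have hsub : (wide T' L' (4 * p ^ 6)).card ≤ M := by
      have h1 : wide T' L' (4 * p ^ 6) ⊆ (univ : Finset (Fin M)).map ⟨Sum.inl, Sum.inl_injective⟩ := by
        intro j hj
        unfold wide at hj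
        rw [mem_filter] at hj
        rw [mem_map]
        cases j with
        | inl j => exact ⟨j, mem_univ _, rfl⟩
        | inr q =>
          exfalso
          have h2 := hj.2
          have h3 : touchM (T' (Sum.inr q)) (L' (Sum.inr q)) ⊆ {q.1} := by
            intro v hv
            rw [mem_touchM] at hv
            obtain ⟨b, hb | ⟨w, hw⟩⟩ := hv
            · rw [hT'] at hb
              exact absurd hb (notMem_empty _)
            · rw [hL'] at hw
              simp only [Sum.elim_inr, mem_singleton, Prod.mk.injEq] at hw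
              rw [mem_singleton, ← hw.1]
          have h4 := card_le_card h3
          rw [card_singleton] at h4
          omega
      have h2 := card_le_card h1
      rw [card_map, card_univ, Fintype.card_fin] at h2
      exact h2
    exact_mod_cast hsub
  · have h1 := hf (ext emb z)
    rw [fn_ext] at h1
    have e : ∑ i, a i * bit (ext emb z i) + ∑ j, c j * bit ((g j).eval (ext emb z))
        = ∑ j, c j * α j + ∑ j, (Sum.elim (fun j => c j * β j * κ j) (fun q => a (emb q)) j)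
          * gmon (T' j) (L' j) z := by
      rw [Fintype.sum_sum_type]
      have e1 : ∑ i, a i * bit (ext emb z i) = ∑ q, a (emb q) * bv (z q) := lin_ext emb a z
      have e2 : ∑ q, a (emb q) * bv (z q)
          = ∑ q, (Sum.elim (fun j => c j * β j * κ j) (fun q => a (emb q)) (Sum.inr q))
            * gmon (T' (Sum.inr q)) (L' (Sum.inr q)) z := by
        refine sum_congr rfl fun q _ => ?_
        simp only [Sum.elim_inr, hT', hL', gmon, chi, prod_empty, one_mul]
        congr 1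
        unfold bv
        refine if_congr ?_ rfl rfl
        rw [conjF_eq_true]
        simp
      have e3 : ∑ j, c j * bit ((g j).eval (ext emb z)) = ∑ j, c j * α j
          + ∑ j, (Sum.elim (fun j => c j * β j * κ j) (fun q => a (emb q)) (Sum.inl j))
            * gmon (T' (Sum.inl j)) (L' (Sum.inl j)) z := by
        rw [← sum_add_distrib]
        refine sum_congr rfl fun j _ => ?_
        rw [hg, hκ]
        simp only [Sum.elim_inl, hT', hL']
        ring
      rw [e1, e2, e3]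
      ring
    show fullF p z = _
    rw [Bool.eq_iff_iff, h1, e, decide_eq_true_iff]
    constructor <;> intro h' <;> linarith

lemma fn_maj (hp : 1 ≤ p) (W : ℕ) (h : MajOfThr (fn emb) W) :
    (2 : ℝ) ^ (2 * p ^ 6) ≤ 2 * (128 * p ^ 10 + 1) * W := by
  classical
  obtain ⟨M, u, t, c, a, θ, hW, hf⟩ := h
  have hp6 : 1 ≤ p ^ 6 := Nat.one_le_pow _ _ hp
  have hmain := depth2_lower_bound (midF p) (2 * p ^ 6) (by omega)
    (fun D P hP hs => by
      have := midF_hF hp D P hP hs
      omega) M (fun j q => u j (emb q)) t (fun q => a (emb q)) c θ (fun z => by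
      have h1 := hf (ext emb z)
      rw [fn_ext] at h1
      show fullF p z = _
      have e1 : ∑ i, (a i : ℝ) * bit (ext emb z i) = ∑ q, (a (emb q) : ℝ) * bv (z q) :=
        lin_ext emb (fun i => (a i : ℝ)) z
      have e2 : ∀ j, ∑ i, u j i * bit (ext emb z i) = ∑ q, u j (emb q) * bv (z q) :=
        fun j => lin_ext emb (u j) z
      rw [Bool.eq_iff_iff, h1, e1, decide_eq_true_iff]
      simp only [e2])
  rw [card_Var] at hmain
  refine hmain.trans ?_
  have h2 : (∑ q, |((a (emb q) : ℤ) : ℝ)| + ∑ j, |((c j : ℤ) : ℝ)|) ≤ W := by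
    have h3 : ∑ q, (a (emb q)).natAbs ≤ ∑ i, (a i).natAbs := by
      rw [← sum_map univ emb (fun i => (a i).natAbs)]
      exact sum_le_sum_of_subset (subset_univ _)
    have h4 : (∑ q, (a (emb q)).natAbs + ∑ j, (c j).natAbs : ℕ) ≤ W := by omega
    have h5 : ((∑ q, (a (emb q)).natAbs + ∑ j, (c j).natAbs : ℕ) : ℝ) ≤ W := by exact_mod_cast h4
    push_cast at h5
    simpa [Nat.cast_natAbs] using h5
  push_cast
  have h6 : (2 * (2 * (64 * (p : ℝ) ^ 10) + 1)) = 2 * (128 * p ^ 10 + 1) := by ring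
  rw [h6]
  exact mul_le_mul_of_nonneg_left h2 (by positivity)

end function

/-- the `p`-th member of the family -/
lemma exists_fn {p n : ℕ} (hp : 2 ≤ p) (hn : 256 * p ^ 10 ≤ n) :
    ∃ f : (Fin n → Bool) → Bool, (∀ x, sens f x ≤ 48 * p ^ 5) ∧
      (∀ P, SignRepresents P f → 4 * p ^ 6 ≤ P.totalDegree) ∧
      (∀ M, ThrOfSimple f M → (2 : ℝ) ^ ((p : ℝ) ^ 6 / 4) ≤ M) ∧
      (∀ W, MajOfThr f W → (2 : ℝ) ^ ((p : ℝ) ^ 6 / 4) ≤ W) := by
  have hcard : Fintype.card (Var p × (Bool × Bool)) ≤ Fintype.card (Fin n) := by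
    rw [card_full, Fintype.card_fin]
    exact hn
  obtain ⟨emb⟩ := Function.Embedding.nonempty_of_card_le hcard
  have hp1 : 1 ≤ p := by omega
  refine ⟨fn emb, fn_sens emb, fn_degree emb hp1, fun M hM => ?_, fun W hW => ?_⟩
  · have h1 := fn_simple emb hp1 M hM
    refine le_trans ?_ h1
    have h2 : (2 : ℝ) ^ (p ^ 6) ≤ ((8 / 7 : ℝ) ^ (4 * p ^ 6)) ^ 4 := by
      have h3 : ((8 / 7 : ℝ) ^ (4 * p ^ 6)) ^ 4 = ((8 / 7 : ℝ) ^ 16) ^ (p ^ 6) := by
        rw [← pow_mul, ← pow_mul]
        congr 1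
        ring
      rw [h3]
      exact pow_le_pow_left₀ (by norm_num) (by norm_num) _
    have h4 : (2 : ℝ) ^ ((p : ℝ) ^ 6 / 4) = ((2 : ℝ) ^ (p ^ 6)) ^ (((4 : ℕ) : ℝ)⁻¹) := by
      rw [← Real.rpow_natCast (2 : ℝ) (p ^ 6), ← Real.rpow_mul (by norm_num)]
      congr 1
      push_cast
      ring
    have h5 : (8 / 7 : ℝ) ^ (4 * p ^ 6) = (((8 / 7 : ℝ) ^ (4 * p ^ 6)) ^ 4) ^ (((4 : ℕ) : ℝ)⁻¹) := by
      rw [Real.pow_rpow_inv_natCast (by positivity) (by norm_num)]
    rw [h4, h5]
    exact Real.rpow_le_rpow (by positivity) h2 (by positivity)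
  · have h1 := fn_maj emb hp1 W hW
    have h2 : 2 * (128 * (p : ℝ) ^ 10 + 1) ≤ 2 ^ (p ^ 6) := by
      have h3 : 2 * (128 * p ^ 10 + 1) ≤ 2 ^ (p ^ 6) := by
        have h4 : p ≤ 2 ^ p := Nat.lt_two_pow_self.le
        have h5 : p ^ 10 ≤ 2 ^ (10 * p) := by
          calc p ^ 10 ≤ (2 ^ p) ^ 10 := Nat.pow_le_pow_left h4 10
            _ = 2 ^ (10 * p) := by rw [← pow_mul, mul_comm]
        have h6 : 1 ≤ p ^ 10 := Nat.one_le_pow _ _ hp1
        have h7 : 9 + 10 * p ≤ p ^ 6 := by
          have h8 : 2 ^ 5 ≤ p ^ 5 := Nat.pow_le_pow_left hp 5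
          calc 9 + 10 * p ≤ 32 * p := by omega
            _ ≤ p ^ 5 * p := Nat.mul_le_mul_right _ h8
            _ = p ^ 6 := by ring
        calc 2 * (128 * p ^ 10 + 1) ≤ 512 * p ^ 10 := by omega
          _ ≤ 512 * 2 ^ (10 * p) := Nat.mul_le_mul_left _ h5
          _ = 2 ^ (9 + 10 * p) := by rw [pow_add]; norm_num
          _ ≤ 2 ^ (p ^ 6) := Nat.pow_le_pow_right (by norm_num) h7
      exact_mod_cast h3
    have h3 : (2 : ℝ) ^ (2 * p ^ 6) = 2 ^ (p ^ 6) * 2 ^ (p ^ 6) := by
      rw [← pow_add]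
      congr 1
      ring
    have h4 : (2 : ℝ) ^ (p ^ 6) * 2 ^ (p ^ 6) ≤ 2 ^ (p ^ 6) * W := by
      rw [← h3]
      exact h1.trans (mul_le_mul_of_nonneg_right h2 (by positivity))
    have h5 : (2 : ℝ) ^ (p ^ 6) ≤ W := le_of_mul_le_mul_left h4 (by positivity)
    refine le_trans ?_ h5
    rw [← Real.rpow_natCast (2 : ℝ) (p ^ 6)]
    refine Real.rpow_le_rpow_of_exponent_le (by norm_num) ?_
    push_cast
    have : (0 : ℝ) ≤ (p : ℝ) ^ 6 := by positivity
    linarith

lemma exists_p (s : ℕ) (hs : 1536 ≤ s) : ∃ p, 2 ≤ p ∧ 48 * p ^ 5 ≤ s ∧ s < 1536 * p ^ 5 := by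
  have hex : ∃ p, s < 48 * (p + 1) ^ 5 := by
    refine ⟨s, ?_⟩
    have : s + 1 ≤ (s + 1) ^ 5 := Nat.le_self_pow (by norm_num) _
    omega
  classical
  obtain ⟨hp, hmin⟩ := (⟨Nat.find_spec hex, fun m hm => Nat.find_min hex hm⟩ :
    s < 48 * (Nat.find hex + 1) ^ 5 ∧ ∀ m, m < Nat.find hex → ¬ s < 48 * (m + 1) ^ 5)
  set p := Nat.find hex with hpdef
  have h2 : 2 ≤ p := by
    by_contra h
    push Not at h
    have h1 : p + 1 ≤ 2 := by omega
    have h3 : (p + 1) ^ 5 ≤ 2 ^ 5 := Nat.pow_le_pow_left h1 5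
    omega
  refine ⟨p, h2, ?_, ?_⟩
  · have := hmin (p - 1) (by omega)
    rw [Nat.sub_add_cancel (by omega)] at this
    omega
  · have h3 : (p + 1) ^ 5 ≤ (2 * p) ^ 5 := Nat.pow_le_pow_left (by omega) 5
    have h4 : (2 * p) ^ 5 = 32 * p ^ 5 := by ring
    omega

lemma range_nonempty (K : ℕ) : ∃ s₁ : ℕ, ∀ s, s₁ ≤ s → K * (Nat.log 2 (s ^ 2) + 1) ^ 5 ≤ s := by
  have hlim := tendsto_pow_const_div_const_pow_of_one_lt 5 (r := (2 : ℝ)) (by norm_num)
  have hpos : (0 : ℝ) < 1 / (K * 243 + 1) := by positivity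
  have hev := (hlim.eventually (gt_mem_nhds hpos))
  rw [Filter.eventually_atTop] at hev
  obtain ⟨a, ha⟩ := hev
  refine ⟨2 ^ (a + 3), fun s hs => ?_⟩
  set l := Nat.log 2 s with hl
  have hs0 : s ≠ 0 := by
    have : 0 < 2 ^ (a + 3) := by positivity
    omega
  have h1 : a + 3 ≤ l := by
    rw [hl]
    exact (Nat.le_log_iff_pow_le (by norm_num) hs0).2 hs
  have h2 : 2 ^ l ≤ s := Nat.pow_log_le_self 2 hs0
  have h3 : s < 2 ^ (l + 1) := Nat.lt_pow_succ_log_self (by norm_num) s
  have h4 : Nat.log 2 (s ^ 2) < 2 * (l + 1) := by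
    apply Nat.log_lt_of_lt_pow (pow_ne_zero _ hs0)
    calc s ^ 2 < (2 ^ (l + 1)) ^ 2 := Nat.pow_lt_pow_left h3 (by norm_num)
      _ = 2 ^ (2 * (l + 1)) := by rw [← pow_mul, mul_comm]
  have h5 : Nat.log 2 (s ^ 2) + 1 ≤ 3 * l := by omega
  have h6 : (Nat.log 2 (s ^ 2) + 1) ^ 5 ≤ 243 * l ^ 5 := by
    calc (Nat.log 2 (s ^ 2) + 1) ^ 5 ≤ (3 * l) ^ 5 := Nat.pow_le_pow_left h5 5
      _ = 243 * l ^ 5 := by ring
  have h7 := ha l (by omega)
  have h8 : ((K * 243 + 1 : ℕ) : ℝ) * (l : ℝ) ^ 5 ≤ 2 ^ l := by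
    rw [div_lt_div_iff₀ (by positivity) (by positivity)] at h7
    push_cast
    linarith
  have h9 : (K * 243 + 1) * l ^ 5 ≤ 2 ^ l := by exact_mod_cast h8
  calc K * (Nat.log 2 (s ^ 2) + 1) ^ 5 ≤ K * (243 * l ^ 5) := Nat.mul_le_mul_left _ h6
    _ ≤ (K * 243 + 1) * l ^ 5 := by nlinarith [Nat.zero_le (l ^ 5)]
    _ ≤ 2 ^ l := h9
    _ ≤ s := h2

/-- **Depth two is not enough for the classical restricted kinds of threshold circuits.**

There are constants `κ > 0` and `s₀` such that for all `s ≥ s₀` and `n ≥ s²` some `f` on `n` bits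
of sensitivity at most `s` has sign degree at least `κ s^(6/5)`, is not a linear threshold (real
weights) of the input bits and fewer than `2^(κ s^(6/5))` conjunctions, disjunctions and parities,
and is not a linear threshold with integer weights of total absolute value below `2^(κ s^(6/5))` of
input bits and arbitrary linear threshold gates. Consequently for each `c` the size bound `n^(cs)`
fails for both kinds of depth-2 circuits whenever `K (log₂ n + 1)^5 ≤ s` and `s² ≤ n`, and this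
range of `(s, n)` contains `(s, s²)` for all large `s`. -/
theorem result :
    (∃ κ : ℝ, 0 < κ ∧ ∃ s₀ : ℕ, ∀ s n : ℕ, s₀ ≤ s → s ^ 2 ≤ n →
      ∃ f : (Fin n → Bool) → Bool, (∀ x, sens f x ≤ s) ∧
        (∀ P, SignRepresents P f → κ * (s : ℝ) ^ (6 / 5 : ℝ) ≤ P.totalDegree) ∧
        (∀ M, ThrOfSimple f M → (2 : ℝ) ^ (κ * (s : ℝ) ^ (6 / 5 : ℝ)) ≤ M) ∧
        (∀ W, MajOfThr f W → (2 : ℝ) ^ (κ * (s : ℝ) ^ (6 / 5 : ℝ)) ≤ W)) ∧
    (∀ c : ℕ, ∃ K s₁ : ℕ,
      (∀ s n : ℕ, K * (Nat.log 2 n + 1) ^ 5 ≤ s → s ^ 2 ≤ n →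
        ∃ f : (Fin n → Bool) → Bool, (∀ x, sens f x ≤ s) ∧
          (∀ M, ThrOfSimple f M → n ^ (c * s) < M) ∧
          (∀ W, MajOfThr f W → n ^ (c * s) < W)) ∧
      (∀ s, s₁ ≤ s → K * (Nat.log 2 (s ^ 2) + 1) ^ 5 ≤ s)) := by
  constructor
  · refine ⟨1 / (4 * (1536 : ℝ) ^ (6 / 5 : ℝ)), by positivity, 1536, fun s n hs hn => ?_⟩
    obtain ⟨p, hp2, hp48, hps⟩ := exists_p s hs
    have hn' : 256 * p ^ 10 ≤ n := by
      refine le_trans ?_ hn
      calc 256 * p ^ 10 ≤ 2304 * p ^ 10 := Nat.mul_le_mul_right _ (by norm_num)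
        _ = (48 * p ^ 5) ^ 2 := by ring
        _ ≤ s ^ 2 := Nat.pow_le_pow_left hp48 2
    obtain ⟨f, hf1, hf2, hf3, hf4⟩ := exists_fn hp2 hn'
    have key : 1 / (4 * (1536 : ℝ) ^ (6 / 5 : ℝ)) * (s : ℝ) ^ (6 / 5 : ℝ) ≤ (p : ℝ) ^ 6 / 4 := by
      have h1 : (s : ℝ) ≤ 1536 * (p : ℝ) ^ 5 := by exact_mod_cast hps.le
      have h2 : (s : ℝ) ^ (6 / 5 : ℝ) ≤ (1536 : ℝ) ^ (6 / 5 : ℝ) * (p : ℝ) ^ 6 := by
        calc (s : ℝ) ^ (6 / 5 : ℝ) ≤ (1536 * (p : ℝ) ^ 5) ^ (6 / 5 : ℝ) :=
              Real.rpow_le_rpow (by positivity) h1 (by norm_num)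
          _ = (1536 : ℝ) ^ (6 / 5 : ℝ) * ((p : ℝ) ^ 5) ^ (6 / 5 : ℝ) :=
              Real.mul_rpow (by norm_num) (by positivity)
          _ = (1536 : ℝ) ^ (6 / 5 : ℝ) * (p : ℝ) ^ 6 := by
              congr 1
              rw [← Real.rpow_natCast, ← Real.rpow_mul (by positivity), ← Real.rpow_natCast]
              congr 1
              norm_num
      have h3 : (0 : ℝ) < (1536 : ℝ) ^ (6 / 5 : ℝ) := by positivity
      rw [div_mul_eq_mul_div, one_mul, div_le_div_iff₀ (by positivity) (by norm_num)]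
      nlinarith [h2]
    refine ⟨f, fun x => (hf1 x).trans hp48, fun P hP => key.trans ?_, fun M hM => ?_,
      fun W hW => ?_⟩
    · have h1 := hf2 P hP
      have h2 : (4 : ℝ) * (p : ℝ) ^ 6 ≤ P.totalDegree := by exact_mod_cast h1
      have h3 : (0 : ℝ) ≤ (p : ℝ) ^ 6 := by positivity
      linarith
    · exact (Real.rpow_le_rpow_of_exponent_le (by norm_num) key).trans (hf3 M hM)
    · exact (Real.rpow_le_rpow_of_exponent_le (by norm_num) key).trans (hf4 W hW)
  · intro c
    obtain ⟨s₁, hs₁⟩ := range_nonempty (1536 * (6144 * (c + 1)) ^ 5)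
    refine ⟨1536 * (6144 * (c + 1)) ^ 5, s₁, fun s n hs hn => ?_, hs₁⟩
    set l := Nat.log 2 n + 1 with hl
    have hl1 : 1 ≤ l := by omega
    have h1536 : 1536 ≤ s := by
      refine le_trans ?_ hs
      have h1 : 1 ≤ (6144 * (c + 1)) ^ 5 := Nat.one_le_pow _ _ (by omega)
      have h2 : 1 ≤ l ^ 5 := Nat.one_le_pow _ _ hl1
      calc 1536 = 1536 * 1 * 1 := by norm_num
        _ ≤ 1536 * (6144 * (c + 1)) ^ 5 * l ^ 5 :=
          Nat.mul_le_mul (Nat.mul_le_mul_left _ h1) h2
    obtain ⟨p, hp2, hp48, hps⟩ := exists_p s h1536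
    have hn' : 256 * p ^ 10 ≤ n := by
      refine le_trans ?_ hn
      calc 256 * p ^ 10 ≤ 2304 * p ^ 10 := Nat.mul_le_mul_right _ (by norm_num)
        _ = (48 * p ^ 5) ^ 2 := by ring
        _ ≤ s ^ 2 := Nat.pow_le_pow_left hp48 2
    obtain ⟨f, hf1, hf2, hf3, hf4⟩ := exists_fn hp2 hn'
    have hCl : 6144 * (c + 1) * l < p := by
      have h1 : 1536 * (6144 * (c + 1) * l) ^ 5 < 1536 * p ^ 5 := by
        calc 1536 * (6144 * (c + 1) * l) ^ 5 = 1536 * (6144 * (c + 1)) ^ 5 * l ^ 5 := by ring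
          _ ≤ s := hs
          _ < 1536 * p ^ 5 := hps
      have h2 : (6144 * (c + 1) * l) ^ 5 < p ^ 5 := by omega
      exact lt_of_pow_lt_pow_left₀ 5 (Nat.zero_le _) h2
    have hexp : 4 * (l * (c * s)) < p ^ 6 := by
      have hp5 : 0 < p ^ 5 := by positivity
      calc 4 * (l * (c * s)) ≤ 4 * (l * (c * (1536 * p ^ 5))) := by gcongr
        _ = (6144 * c * l) * p ^ 5 := by ring
        _ ≤ (6144 * (c + 1) * l) * p ^ 5 := by gcongr; omega
        _ < p * p ^ 5 := Nat.mul_lt_mul_of_pos_right hCl hp5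
        _ = p ^ 6 := by ring
    have hnl : n < 2 ^ l := Nat.lt_pow_succ_log_self (by norm_num) n
    have hbig : ((n ^ (c * s) : ℕ) : ℝ) < (2 : ℝ) ^ ((p : ℝ) ^ 6 / 4) := by
      have h1 : ((n ^ (c * s) : ℕ) : ℝ) ≤ (2 : ℝ) ^ ((l * (c * s) : ℕ) : ℝ) := by
        rw [Real.rpow_natCast]
        have h2 : n ^ (c * s) ≤ 2 ^ (l * (c * s)) := by
          rw [pow_mul 2 l (c * s)]
          exact Nat.pow_le_pow_left hnl.le _
        exact_mod_cast h2
      refine lt_of_le_of_lt h1 (Real.rpow_lt_rpow_of_exponent_lt (by norm_num) ?_)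
      have h3 : (4 : ℝ) * ((l * (c * s) : ℕ) : ℝ) < (p : ℝ) ^ 6 := by exact_mod_cast hexp
      linarith
    refine ⟨f, fun x => (hf1 x).trans hp48, fun M hM => ?_, fun W hW => ?_⟩
    · have h1 := lt_of_lt_of_le hbig (hf3 M hM)
      exact_mod_cast h1
    · have h1 := lt_of_lt_of_le hbig (hf4 W hW)
      exact_mod_cast h1

end Pool.Agent.Results.MP_671030_lc.DepthTwoFails
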